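import Mathlib

set_option autoImplicit false

namespace Pool.Agent.Results.MP_c51eea_al.DihedralCounterexample

/-- A 2-group: a group whose order is a power of 2 (in particular it is finite, since
`Nat.card` of an infinite type is `0`). -/
def IsTwoGroup (G : Type) [Group G] : Prop := ∃ k : ℕ, Nat.card G = 2 ^ k

/-- `G` is realizable: it is isomorphic to the unit group of a finite associative ring with
identity (not necessarily commutative). -/
def Realizable (G : Type) [Group G] : Prop :=
  ∃ (R : Type) (_ : Ring R) (_ : Finite R), Nonempty (Rˣ ≃* G)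

/-- If `j` commutes with `r`, `s + j` is a unit, and every unit either commutes with `r` or
becomes one commuting with `r` after multiplication by `s`, then `(r ^ 2 - 1) * j = 0`. -/
lemma kill {R : Type} [Ring R] (r s : Rˣ) (hs : s * s = 1) (hsr : s * r * s = r⁻¹)
    (hns : ¬ Commute s r)
    (hc : ∀ u : Rˣ, Commute u r ∨ Commute (s * u) r)
    (j : R) (hj : Commute j (r : R)) (hu : IsUnit ((s : R) + j)) :
    ((r : R) ^ 2 - 1) * j = 0 := by
  obtain ⟨u, hu⟩ := hu
  have hs' : (s : R) * s = 1 := by
    have := congrArg Units.val hs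
    simpa using this
  have hsr' : (r : R) * s * r = s := by
    have h1 : r * s * r = s := by
      have : s * (r * s * r) = 1 := by
        calc s * (r * s * r) = (s * r * s) * r := by group
          _ = 1 := by rw [hsr]; group
      calc r * s * r = (s * s) * (r * s * r) := by rw [hs, one_mul]
        _ = s * (s * (r * s * r)) := by group
        _ = s := by rw [this, mul_one]
    have := congrArg Units.val h1
    simpa using this
  have hj' : j * r = r * j := hj
  rcases hc u with h | h
  · exfalso
    apply hns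
    have h1 : (u : R) * r = r * u := by
      have := congrArg Units.val h.eq
      simpa using this
    rw [hu] at h1
    have h2 : (s : R) * r = r * s := by
      have : (s : R) * r + j * r = r * s + r * j := by
        rw [← add_mul, ← mul_add]; exact h1
      rw [hj'] at this
      exact add_right_cancel this
    exact Units.ext (by simpa using h2)
  · have h1 : (s : R) * u * r = r * (s * u) := by
      have := congrArg Units.val h.eq
      simpa using this
    rw [hu] at h1
    -- s * (s + j) * r = r * (s * (s + j))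
    have h2 : (s : R) * j * r = r * (s * j) := by
      have e1 : (s : R) * (s + j) * r = r + s * j * r := by
        rw [mul_add, hs', add_mul, one_mul]
      have e2 : (r : R) * (s * (s + j)) = r + r * (s * j) := by
        rw [mul_add, hs', mul_add, mul_one]
      rw [e1, e2] at h1
      exact add_left_cancel h1
    -- multiply by r on the left: (r s r) j = ... 
    have h3 : (r : R) * (s * j * r) = s * j := by
      calc (r : R) * (s * j * r) = r * s * (j * r) := by noncomm_ring
        _ = r * s * (r * j) := by rw [hj']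
        _ = (r * s * r) * j := by noncomm_ring
        _ = s * j := by rw [hsr']
    have h4 : (r : R) * (r * (s * j)) = s * j := by rw [← h2, h3]
    -- s j r^2 = s j
    have h5 : (s : R) * (j * (r * r)) = s * j := by
      calc (s : R) * (j * (r * r)) = (s * j * r) * r := by noncomm_ring
        _ = r * (s * j) * r := by rw [h2]
        _ = r * (s * j * r) := by noncomm_ring
        _ = s * j := h3
    have h6 : j * ((r : R) * r) = j := by
      have := congrArg (fun x => (s : R) * x) h5
      simp only [← mul_assoc, hs', one_mul] at this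
      simpa [mul_assoc] using this
    have h7 : (r : R) * r * j = j := by
      calc (r : R) * r * j = r * (r * j) := by noncomm_ring
        _ = r * (j * r) := by rw [hj']
        _ = (r * j) * r := by noncomm_ring
        _ = (j * r) * r := by rw [hj']
        _ = j * (r * r) := by noncomm_ring
        _ = j := h6
    rw [sub_mul, one_mul, pow_two, h7, sub_self]

lemma isUnit_add_of_nilp {R : Type} [Ring R] (s : Rˣ) (hs : s * s = 1) (j : R)
    (h : IsNilpotent ((s : R) * j)) : IsUnit ((s : R) + j) := by
  have hs' : (s : R) * s = 1 := by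
    have := congrArg Units.val hs
    simpa using this
  have h1 : (s : R) + j = s * (1 + s * j) := by
    rw [mul_add, mul_one, ← mul_assoc, hs', one_mul]
  rw [h1]
  exact s.isUnit.mul h.isUnit_one_add

/-- The main ring-theoretic lemma. -/
lemma key {R : Type} [Ring R] [Finite R] (r s : Rˣ) (hs : s * s = 1) (hsr : s * r * s = r⁻¹)
    (hns : ¬ Commute s r)
    (hc : ∀ u : Rˣ, Commute u r ∨ Commute (s * u) r)
    (h2 : ∀ u : Rˣ, ∃ k : ℕ, u ^ (2 ^ k) = 1) : r ^ 4 = 1 := by
  have hs' : (s : R) * s = 1 := by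
    have := congrArg Units.val hs
    simpa using this
  have hrinv : (r : R) * (r⁻¹ : Rˣ) = 1 := r.mul_inv
  have hrinv' : ((r⁻¹ : Rˣ) : R) * r = 1 := r.inv_mul
  have hsrs : (s : R) * r * s = (r⁻¹ : Rˣ) := by
    have := congrArg Units.val hsr
    simpa using this
  -- the characteristic
  obtain ⟨N, hN0, hN⟩ : ∃ N : ℕ, N ≠ 0 ∧ (N : R) = 0 := by
    refine ⟨ringChar R, ?_, ringChar.Nat.cast_ringChar⟩
    exact CharP.ringChar_ne_zero_of_finite R
  obtain ⟨a, m, hm, rfl⟩ := Nat.exists_eq_two_pow_mul_odd hN0
  have hN' : (2 : R) ^ a * (m : R) = 0 := by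
    have : (((2 ^ a * m : ℕ)) : R) = 0 := hN
    push_cast at this
    exact this
  -- part 1 : m * (r^4 - 1) = 0
  have hmcomm : ∀ x : R, (m : R) * x = x * m := fun x => Nat.cast_comm m x
  have h2comm : ∀ x : R, (2 : R) * x = x * 2 := fun x => by
    rw [two_mul, mul_two]
  set q : R := (r : R) ^ 2 - 1 with hq
  have hqr : Commute q (r : R) := by
    rw [hq]
    exact (((Commute.refl (r : R)).pow_left 2).sub_left (Commute.one_left _))
  have part1 : (m : R) * ((r : R) ^ 4 - 1) = 0 := by
    have k1 : q * ((2 : R) * m) = 0 := by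
      apply kill r s hs hsr hns hc
      · have : (2 : R) * m = ((2 * m : ℕ) : R) := by push_cast; rfl
        rw [this]
        exact Nat.cast_commute _ _
      · apply isUnit_add_of_nilp s hs
        have hcm : Commute (s : R) ((2 : R) * m) := by
          have : (2 : R) * m = ((2 * m : ℕ) : R) := by push_cast; rfl
          rw [this]
          exact (Nat.cast_commute _ _).symm
        refine ⟨a + 1, ?_⟩
        rw [hcm.mul_pow]
        have h2m : Commute (2 : R) (m : R) := (Nat.cast_commute m (2 : R)).symm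
        rw [h2m.mul_pow, pow_succ (2 : R) a, pow_succ' (m : R) a]
        have : (2 : R) ^ a * 2 * (m * (m : R) ^ a) = (2 ^ a * m) * (2 * (m : R) ^ a) := by
          rw [mul_assoc, ← mul_assoc (2 : R) (m : R), h2comm (m : R)]
          simp only [mul_assoc]
        rw [this, hN', zero_mul, mul_zero]
    have k2 : q * ((m : R) * q) = 0 := by
      apply kill r s hs hsr hns hc
      · exact (Nat.cast_commute m (r : R)).mul_left hqr
      · apply isUnit_add_of_nilp s hs
        -- (m q) is nilpotent
        have hnil : IsNilpotent ((m : R) * q) := by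
          obtain ⟨k, hk⟩ := h2 r
          have hk' : (r : R) ^ (2 ^ k) = 1 := by
            have := congrArg Units.val hk
            simpa using this
          have hcomm1 : Commute ((r : R) ^ 2) (-1 : R) := (Commute.one_right _).neg_right
          obtain ⟨w, hw⟩ := hcomm1.exists_add_pow_prime_pow_eq Nat.prime_two (k + 1)
          obtain ⟨w', hw'⟩ : ∃ w' : R, q ^ (2 ^ (k + 1)) = 2 * w' := by
            refine ⟨1 - (r : R) ^ 2 * w, ?_⟩
            rw [hq, sub_eq_add_neg, hw]
            have e1 : ((r : R) ^ 2) ^ (2 ^ (k + 1)) = 1 := by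
              rw [← pow_mul, pow_succ 2 k, ← mul_assoc, mul_comm 2 (2 ^ k), mul_assoc, pow_mul,
                hk', one_pow]
            have e2 : (-1 : R) ^ (2 ^ (k + 1)) = 1 := by
              rw [pow_succ 2 k, mul_comm, pow_mul]; simp
            rw [e1, e2]
            push_cast
            noncomm_ring
          refine ⟨2 ^ (k + 1) * (a + 1), ?_⟩
          have hmq : Commute (m : R) q := Nat.cast_commute m q
          rw [pow_mul, hmq.mul_pow, hw']
          have hc2 : Commute ((m : R) ^ 2 ^ (k + 1)) (2 * w') :=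
            (Nat.cast_commute m _).pow_left _
          rw [hc2.mul_pow]
          have hc3 : Commute (2 : R) w' := h2comm _
          rw [hc3.mul_pow]
          have e3 : ((m : R) ^ 2 ^ (k + 1)) ^ (a + 1) * (2 : R) ^ (a + 1) = 0 := by
            rw [← pow_mul]
            obtain ⟨t, ht⟩ : ∃ t, 2 ^ (k + 1) * (a + 1) = t + 1 :=
              Nat.exists_eq_succ_of_ne_zero (by positivity)
            rw [ht, pow_succ, pow_succ' (2 : R) a]
            have e4 : (m : R) ^ t * m * (2 * 2 ^ a) = (m : R) ^ t * 2 * (2 ^ a * m) := by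
              have e5 : (2 : R) ^ a * m = m * 2 ^ a :=
                ((Nat.cast_commute m ((2 : R) ^ a)).symm).eq
              rw [e5, mul_assoc, mul_assoc, ← mul_assoc (m : R) 2, ← h2comm, mul_assoc]
            rw [e4, hN', mul_zero]
          rw [← mul_assoc, e3, zero_mul]
        -- now s * (m q) is nilpotent
        have hsq : (s : R) * q * s * (r : R) ^ 2 = - q := by
          have e1 : (s : R) * (r : R) ^ 2 * s = (r⁻¹ : Rˣ) * (r⁻¹ : Rˣ) := by
            calc (s : R) * (r : R) ^ 2 * s = (s * r) * ((s * s) * (r * s)) := by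
                  rw [hs']; noncomm_ring
              _ = (s * r * s) * (s * r * s) := by noncomm_ring
              _ = _ := by rw [hsrs]
          calc (s : R) * q * s * (r : R) ^ 2
              = ((s : R) * (r : R) ^ 2 * s) * (r : R) ^ 2 - (s * s) * (r : R) ^ 2 := by
                rw [hq]; noncomm_ring
            _ = (r⁻¹ : Rˣ) * ((r⁻¹ : Rˣ) * r) * r - (r : R) ^ 2 := by
                rw [e1, hs', one_mul]; noncomm_ring
            _ = - q := by rw [hrinv', mul_one, hrinv', hq]; noncomm_ring
        have hrinvsq : ((r⁻¹ : Rˣ) : R) * (r⁻¹ : Rˣ) * (r : R) ^ 2 = 1 := by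
          calc ((r⁻¹ : Rˣ) : R) * (r⁻¹ : Rˣ) * (r : R) ^ 2
              = (r⁻¹ : Rˣ) * ((r⁻¹ : Rˣ) * r) * r := by noncomm_ring
            _ = 1 := by rw [hrinv', mul_one, hrinv']
        have hr2inv : (r : R) ^ 2 * (((r⁻¹ : Rˣ) : R) * (r⁻¹ : Rˣ)) = 1 := by
          calc (r : R) ^ 2 * (((r⁻¹ : Rˣ) : R) * (r⁻¹ : Rˣ))
              = r * (r * (r⁻¹ : Rˣ)) * (r⁻¹ : Rˣ) := by noncomm_ring
            _ = 1 := by rw [hrinv, mul_one, hrinv]
        have hsqs : (s : R) * q * s = - q * (((r⁻¹ : Rˣ) : R) * (r⁻¹ : Rˣ)) := by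
          calc (s : R) * q * s = (s * q * s) * ((r : R) ^ 2 * (((r⁻¹ : Rˣ) : R) * (r⁻¹ : Rˣ))) := by
                rw [hr2inv, mul_one]
            _ = (s * q * s * (r : R) ^ 2) * (((r⁻¹ : Rˣ) : R) * (r⁻¹ : Rˣ)) := by
                simp only [mul_assoc]
            _ = _ := by rw [hsq]
        have hsq2 : ((s : R) * ((m : R) * q)) ^ 2
            = (-(((r⁻¹ : Rˣ) : R) * (r⁻¹ : Rˣ))) * ((m : R) * q) ^ 2 := by
          have hcr : Commute q (((r⁻¹ : Rˣ) : R) * (r⁻¹ : Rˣ)) := by
            have : Commute q ((r⁻¹ : Rˣ) : R) := hqr.units_inv_right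
            exact this.mul_right this
          have hmq : (m : R) * q = q * m := hmcomm q
          calc ((s : R) * ((m : R) * q)) ^ 2
              = s * (m * q) * s * (m * q) := by noncomm_ring
            _ = m * (s * q * s) * (m * q) := by
                rw [← mul_assoc (s : R) (m : R) q, ← hmcomm (s : R)]
                noncomm_ring
            _ = m * (- q * (((r⁻¹ : Rˣ) : R) * (r⁻¹ : Rˣ))) * (m * q) := by rw [hsqs]
            _ = m * (-((((r⁻¹ : Rˣ) : R) * (r⁻¹ : Rˣ)) * q)) * (m * q) := by
                rw [neg_mul, hcr.eq]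
            _ = (-(((r⁻¹ : Rˣ) : R) * (r⁻¹ : Rˣ))) * (m * q) * (m * q) := by
                rw [mul_neg, ← mul_assoc (m : R), hmcomm (((r⁻¹ : Rˣ) : R) * (r⁻¹ : Rˣ)),
                  neg_mul, neg_mul, neg_mul, mul_assoc _ (m : R) q]
            _ = _ := by rw [pow_two, mul_assoc]
        have hcc : Commute (-(((r⁻¹ : Rˣ) : R) * (r⁻¹ : Rˣ))) (((m : R) * q) ^ 2) := by
          have hcr : Commute ((r⁻¹ : Rˣ) : R) ((m : R) * q) :=
            ((Nat.cast_commute m _).symm).mul_right (hqr.units_inv_right).symm
          exact ((hcr.mul_left hcr).neg_left).pow_right 2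
        obtain ⟨t, ht⟩ := hnil
        refine ⟨2 * t, ?_⟩
        rw [pow_mul, hsq2, hcc.mul_pow, ← pow_mul, mul_comm 2 t, pow_mul, ht]
        simp
    have : (m : R) * ((r : R) ^ 4 - 1) = q * ((m : R) * q) + q * ((2 : R) * m) := by
      have e1 : (r : R) ^ 4 - 1 = q * q + 2 * q := by
        rw [hq]; noncomm_ring
      rw [e1, mul_add, ← mul_assoc, hmcomm q, mul_assoc, ← hmcomm q]
      congr 1
      rw [hmcomm (2 * q), h2comm q, mul_assoc]
    rw [this, k1, k2, add_zero]
  -- part 2 : 2 ^ a * (r^4 - 1) = 0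
  have part2 : (2 : R) ^ a * ((r : R) ^ 4 - 1) = 0 := by
    -- square-zero elements killed by `m` vanish
    have sqz : ∀ y : R, y * y = 0 → (m : R) * y = 0 → y = 0 := by
      intro y hy hmy
      have hnil : IsNilpotent y := ⟨2, by rw [pow_two, hy]⟩
      obtain ⟨u, hu⟩ := hnil.isUnit_one_add
      have hpow : ∀ n : ℕ, (1 + y) ^ n = 1 + n * y := by
        intro n
        induction n with
        | zero => simp
        | succ n ih =>
          rw [pow_succ, ih]
          have : (1 + (n : R) * y) * (1 + y) = 1 + (n : R) * y + y + n * (y * y) := by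
            noncomm_ring
          rw [this, hy]
          push_cast
          noncomm_ring
      have hm1 : u ^ m = 1 := by
        apply Units.ext
        rw [Units.val_pow_eq_pow_val, hu, hpow, hmy]
        simp
      obtain ⟨k, hk⟩ := h2 u
      have hcop : Nat.Coprime m (2 ^ k) := (Nat.coprime_two_right.mpr hm).pow_right k
      have hu1 : u = 1 := by
        have h1 : orderOf u ∣ m := orderOf_dvd_of_pow_eq_one hm1
        have h2' : orderOf u ∣ 2 ^ k := orderOf_dvd_of_pow_eq_one hk
        have h3 : orderOf u ∣ 1 := by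
          have := Nat.dvd_gcd h1 h2'
          rwa [hcop.gcd_eq_one] at this
        exact orderOf_eq_one_iff.mp (Nat.dvd_one.mp h3)
      rw [hu1] at hu
      simp only [Units.val_one] at hu
      have : (1 : R) + 0 = 1 + y := by rw [add_zero]; exact hu
      exact (add_left_cancel this).symm
    have hmN : (m : R) * 2 ^ a = 0 := by
      rw [hmcomm, hN']
    have h2acomm : ∀ x : R, (2 : R) ^ a * x = x * 2 ^ a := by
      intro x
      have : Commute (2 : R) x := h2comm x
      exact (this.pow_left a).eq
    have y1 : (2 : R) ^ a * ((1 + s) * r * (1 - s)) = 0 := by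
      apply sqz
      · have e : (1 - (s : R)) * (1 + s) = 0 := by
          have : (1 - (s : R)) * (1 + s) = 1 - s * s := by noncomm_ring
          rw [this, hs', sub_self]
        have : (2 : R) ^ a * ((1 + s) * r * (1 - s)) * ((2 : R) ^ a * ((1 + s) * r * (1 - s)))
            = (2 : R) ^ a * (2 : R) ^ a * ((1 + s) * r * ((1 - s) * (1 + s)) * r * (1 - s)) := by
          rw [mul_assoc, ← mul_assoc ((1 + (s : R)) * r * (1 - s)) ((2 : R) ^ a), ← h2acomm]
          simp only [mul_assoc]
        rw [this, e]
        simp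
      · rw [← mul_assoc, hmN, zero_mul]
    have y2 : (2 : R) ^ a * ((1 - s) * r * (1 + s)) = 0 := by
      apply sqz
      · have e : (1 + (s : R)) * (1 - s) = 0 := by
          have : (1 + (s : R)) * (1 - s) = 1 - s * s := by noncomm_ring
          rw [this, hs', sub_self]
        have : (2 : R) ^ a * ((1 - s) * r * (1 + s)) * ((2 : R) ^ a * ((1 - s) * r * (1 + s)))
            = (2 : R) ^ a * (2 : R) ^ a * ((1 - s) * r * ((1 + s) * (1 - s)) * r * (1 + s)) := by
          rw [mul_assoc, ← mul_assoc ((1 - (s : R)) * r * (1 + s)) ((2 : R) ^ a), ← h2acomm]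
          simp only [mul_assoc]
        rw [this, e]
        simp
      · rw [← mul_assoc, hmN, zero_mul]
    -- sum
    have hsum : (1 + (s : R)) * r * (1 - s) + (1 - s) * r * (1 + s)
        = 2 * (r - (r⁻¹ : Rˣ)) := by
      have : (1 + (s : R)) * r * (1 - s) + (1 - s) * r * (1 + s)
          = 2 * (r - s * r * s) := by noncomm_ring
      rw [this, hsrs]
    have h3 : (2 : R) ^ a * (2 * ((r : R) - (r⁻¹ : Rˣ))) = 0 := by
      rw [← hsum, mul_add, y1, y2, add_zero]
    have h4 : (2 : R) ^ a * ((r : R) - (r⁻¹ : Rˣ)) = 0 := by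
      obtain ⟨t, ht⟩ := hm
      have e1 : (m : R) * ((2 : R) ^ a * ((r : R) - (r⁻¹ : Rˣ))) = 0 := by
        rw [← mul_assoc, hmN, zero_mul]
      have e2 : (m : R) = 2 * t + 1 := by rw [ht]; push_cast; rfl
      rw [e2, add_mul, one_mul] at e1
      have e3 : 2 * (t : R) * ((2 : R) ^ a * ((r : R) - (r⁻¹ : Rˣ))) = 0 := by
        have : 2 * (t : R) * ((2 : R) ^ a * ((r : R) - (r⁻¹ : Rˣ)))
            = (t : R) * ((2 : R) ^ a * (2 * ((r : R) - (r⁻¹ : Rˣ)))) := by
          rw [h2comm (t : R), mul_assoc, ← mul_assoc (2 : R) ((2 : R) ^ a), ← h2acomm 2, mul_assoc]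
        rw [this, h3, mul_zero]
      rw [e3, zero_add] at e1
      exact e1
    have e5 : (r : R) ^ 4 - 1 = ((r : R) - (r⁻¹ : Rˣ)) * (r * ((r : R) ^ 2 + 1)) := by
      have : ((r : R) - (r⁻¹ : Rˣ)) * (r * ((r : R) ^ 2 + 1))
          = r ^ 4 + r ^ 2 - ((r⁻¹ : Rˣ) * r) * (r ^ 2 + 1) := by noncomm_ring
      rw [this, hrinv']
      noncomm_ring
    rw [e5, ← mul_assoc, h4, zero_mul]
  -- combine
  have hfinal : (r : R) ^ 4 - 1 = 0 := by
    have hcop : Nat.Coprime m (2 ^ a) := (Nat.coprime_two_right.mpr hm).pow_right a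
    have hb := Nat.gcd_eq_gcd_ab m (2 ^ a)
    rw [hcop.gcd_eq_one] at hb
    have hb' : (1 : R) = (m : R) * ((Nat.gcdA m (2 ^ a) : ℤ) : R)
        + (2 : R) ^ a * ((Nat.gcdB m (2 ^ a) : ℤ) : R) := by
      have := congrArg (fun z : ℤ => (z : R)) hb
      push_cast at this
      exact this
    generalize hZ : (r : R) ^ 4 - 1 = Z at part1 part2 ⊢
    calc Z = Z * 1 := (mul_one _).symm
      _ = Z * m * ((Nat.gcdA m (2 ^ a) : ℤ) : R)
          + Z * (2 : R) ^ a * ((Nat.gcdB m (2 ^ a) : ℤ) : R) := by
            conv_lhs => rw [hb']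
            rw [mul_add, mul_assoc, mul_assoc]
      _ = 0 := by
        rw [← hmcomm, part1, zero_mul, zero_add]
        have h2acomm : Z * (2 : R) ^ a = 2 ^ a * Z := by
          have : Commute (2 : R) Z := h2comm _
          exact ((this.pow_left a).eq).symm
        rw [h2acomm, part2, zero_mul]
  apply Units.ext
  rw [Units.val_pow_eq_pow_val]
  exact sub_eq_zero.mp hfinal

theorem main (n : ℕ) (hn : 3 ≤ n) (H : Type) [Group H] (hH : IsTwoGroup H) :
    ¬ Realizable (DihedralGroup (2 ^ n) × H) := by
  rintro ⟨R, _, _, ⟨φ⟩⟩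
  have : NeZero (2 ^ n) := ⟨by positivity⟩
  set r : Rˣ := φ.symm (DihedralGroup.r 1, 1) with hr
  set s : Rˣ := φ.symm (DihedralGroup.sr 0, 1) with hs
  have h1 : r ^ 4 = 1 := by
    apply key r s
    · rw [hs, ← map_mul]
      simp
    · rw [hs, hr, ← map_mul, ← map_mul, ← map_inv]
      simp
    · intro h
      have h2 := h.eq
      rw [hs, hr, ← map_mul, ← map_mul] at h2
      have h3 := φ.symm.injective h2
      simp at h3
      have h4 : (2 : ZMod (2 ^ n)) = 0 := by
        have : (1 : ZMod (2 ^ n)) + 1 = 0 := by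
          nth_rewrite 1 [h3]
          ring
        rw [← this]; norm_num
      have h5 : ((2 : ℕ) : ZMod (2 ^ n)) = 0 := by exact_mod_cast h4
      rw [ZMod.natCast_eq_zero_iff] at h5
      have h6 := Nat.le_of_dvd (by norm_num) h5
      have : 2 ^ 3 ≤ 2 ^ n := Nat.pow_le_pow_right (by norm_num) hn
      omega
    · intro u
      obtain ⟨⟨g, h⟩, rfl⟩ := φ.symm.surjective u
      cases g with
      | r i =>
        left
        show φ.symm _ * r = r * φ.symm _
        rw [hr, ← map_mul, ← map_mul]
        simp [add_comm]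
      | sr i =>
        right
        show s * φ.symm _ * r = r * (s * φ.symm _)
        rw [hr, hs, ← map_mul, ← map_mul, ← map_mul]
        simp [add_comm]
    · intro u
      obtain ⟨⟨g, h⟩, rfl⟩ := φ.symm.surjective u
      obtain ⟨k, hk⟩ := hH
      refine ⟨n + 1 + k, ?_⟩
      rw [← map_pow]
      have hg : g ^ (2 ^ (n + 1)) = 1 := by
        have : 2 ^ (n + 1) = Nat.card (DihedralGroup (2 ^ n)) := by
          rw [DihedralGroup.nat_card]; ring
        rw [this]
        exact pow_card_eq_one'
      have hh : h ^ (2 ^ k) = 1 := by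
        rw [← hk]
        exact pow_card_eq_one'
      have : ((g, h) : DihedralGroup (2 ^ n) × H) ^ 2 ^ (n + 1 + k) = 1 := by
        rw [Prod.pow_mk]
        apply Prod.ext
        · show g ^ 2 ^ (n + 1 + k) = 1
          rw [pow_add 2, pow_mul, hg, one_pow]
        · show h ^ 2 ^ (n + 1 + k) = 1
          rw [pow_add 2, mul_comm, pow_mul, hh, one_pow]
      rw [this, map_one]
  rw [hr, ← map_pow] at h1
  have h2 : ((DihedralGroup.r 1, 1) : DihedralGroup (2 ^ n) × H) ^ 4 = 1 := by
    apply φ.symm.injective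
    rw [h1, map_one]
  have h3 := congrArg Prod.fst h2
  simp only [Prod.pow_fst, DihedralGroup.r_one_pow, Prod.fst_one] at h3
  rw [DihedralGroup.one_def] at h3
  have h4 : ((4 : ℕ) : ZMod (2 ^ n)) = 0 := DihedralGroup.r.inj h3
  rw [ZMod.natCast_eq_zero_iff] at h4
  have h6 := Nat.le_of_dvd (by norm_num) h4
  have : 2 ^ 3 ≤ 2 ^ n := Nat.pow_le_pow_right (by norm_num) hn
  omega

/-- Negative answer to Q1: for every `n ≥ 3` the dihedral group `G` of order `2 ^ (n + 1)` is a
nonabelian 2-group, is not realizable, and `G × H` is not realizable for any 2-group `H`. -/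
theorem result : ∀ n : ℕ, 3 ≤ n →
    IsTwoGroup (DihedralGroup (2 ^ n)) ∧
    (∃ a b : DihedralGroup (2 ^ n), a * b ≠ b * a) ∧
    ¬ Realizable (DihedralGroup (2 ^ n)) ∧
    ∀ (H : Type) [Group H], IsTwoGroup H → ¬ Realizable (DihedralGroup (2 ^ n) × H) := by
  intro n hn
  refine ⟨⟨n + 1, ?_⟩, ⟨DihedralGroup.r 1, DihedralGroup.sr 0, ?_⟩, ?_, ?_⟩
  · rw [DihedralGroup.nat_card]; ring
  · intro h
    simp at h
    have h5 : ((2 : ℕ) : ZMod (2 ^ n)) = 0 := by
      have : (1 : ZMod (2 ^ n)) + 1 = 0 := by
        nth_rewrite 1 [← h]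
        ring
      rw [← this]; push_cast; norm_num
    rw [ZMod.natCast_eq_zero_iff] at h5
    have h6 := Nat.le_of_dvd (by norm_num) h5
    have : 2 ^ 3 ≤ 2 ^ n := Nat.pow_le_pow_right (by norm_num) hn
    omega
  · rintro ⟨R, _, _, ⟨φ⟩⟩
    have hU : IsTwoGroup Unit := ⟨0, by simp⟩
    apply main n hn Unit hU
    refine ⟨R, inferInstance, inferInstance, ⟨φ.trans ?_⟩⟩
    exact (MulEquiv.prodUnique).symm
  · intro H _ hH
    exact main n hn H hH

end Pool.Agent.Results.MP_c51eea_al.DihedralCounterexample
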